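import Pool.Agent.Run7.h386.PW.Iface

/-! # COV, LAB, RES (project PW of helper386) -/

set_option autoImplicit false

namespace Pool.Agent.Run7.h270.PW

open Finset Pool.Agent.Run7.h386.DE Pool.Agent.Run7.h386.DL Pool.Agent.Run7.h386.PW
open scoped Classical

lemma cls_zero (W : Finset (ℤ × ℤ)) (f : ℤ × ℤ → ℤ) (q : ℕ) (w : ℤ × ℤ) :
    cls W f ((q : ℤ) ^ 0) w = W := by
  unfold cls
  rw [pow_zero]
  exact filter_true_of_mem fun _ _ => one_dvd _

lemma heavy_zero (W : Finset (ℤ × ℤ)) (f : ℤ × ℤ → ℤ) (q A : ℕ) (hA : 2 ≤ A) (hW : W.Nonempty)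
    (w : ℤ × ℤ) : W.card < A * (cls W f ((q : ℤ) ^ 0) w).card := by
  rw [cls_zero]
  have := card_pos.mpr hW
  nlinarith

lemma lev_spec (W : Finset (ℤ × ℤ)) (f : ℤ × ℤ → ℤ) (q J A : ℕ) (hA : 2 ≤ A) (hW : W.Nonempty)
    (w : ℤ × ℤ) : W.card < A * (cls W f ((q : ℤ) ^ (lev W f q J A w)) w).card := by
  unfold lev
  exact Nat.findGreatest_spec (P := fun j => W.card < A * (cls W f ((q : ℤ) ^ j) w).card)
    (Nat.zero_le J) (heavy_zero W f q A hA hW w)

lemma lev_le (W : Finset (ℤ × ℤ)) (f : ℤ × ℤ → ℤ) (q J A : ℕ) (w : ℤ × ℤ) :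
    lev W f q J A w ≤ J := Nat.findGreatest_le J

lemma le_lev (W : Finset (ℤ × ℤ)) (f : ℤ × ℤ → ℤ) (q J A : ℕ) (w : ℤ × ℤ) (j : ℕ) (hj : j ≤ J)
    (h : W.card < A * (cls W f ((q : ℤ) ^ j) w).card) : j ≤ lev W f q J A w :=
  Nat.le_findGreatest hj h

lemma cls_congr (W : Finset (ℤ × ℤ)) (f : ℤ × ℤ → ℤ) (Q : ℤ) (w w' : ℤ × ℤ)
    (h : Q ∣ f w - f w') : cls W f Q w = cls W f Q w' := by
  unfold cls
  refine filter_congr fun x _ => ?_
  constructor
  · intro hx
    have e : f x - f w' = (f x - f w) + (f w - f w') := by ring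
    rw [e]; exact dvd_add hx h
  · intro hx
    have e : f x - f w = (f x - f w') - (f w - f w') := by ring
    rw [e]; exact dvd_sub hx h

lemma lev_le_of_dvd (W : Finset (ℤ × ℤ)) (f : ℤ × ℤ → ℤ) (q J A : ℕ) (hA : 2 ≤ A)
    (hW : W.Nonempty) (w w' : ℤ × ℤ) (h : (q : ℤ) ^ (lev W f q J A w) ∣ f w - f w') :
    lev W f q J A w ≤ lev W f q J A w' := by
  refine le_lev W f q J A w' _ (lev_le W f q J A w) ?_
  rw [← cls_congr W f _ w w' h]
  exact lev_spec W f q J A hA hW w

theorem t_COV : S_COV := by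
  intro W f q J A hA hW
  set P : Finset (ℤ × ℤ) → Prop := fun R =>
    ∀ w ∈ W, ∃ r ∈ R, (q : ℤ) ^ (lev W f q J A w) ∣ f w - f r with hP
  have hne : (W.powerset.filter P).Nonempty := by
    refine ⟨W, mem_filter.mpr ⟨mem_powerset_self W, fun w hw => ⟨w, hw, ?_⟩⟩⟩
    rw [sub_self]; exact dvd_zero _
  obtain ⟨R, hR, hmin⟩ := exists_min_image (W.powerset.filter P) card hne
  rw [mem_filter, mem_powerset] at hR
  obtain ⟨hRW, hRP⟩ := hR
  have hdisj : ∀ r ∈ R, ∀ r' ∈ R, r ≠ r' → lev W f q J A r ≤ lev W f q J A r' →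
      ¬ (q : ℤ) ^ (lev W f q J A r) ∣ f r - f r' := by
    intro r hr r' hr' hne hle hdvd
    have hP' : P (R.erase r) := by
      intro w hw
      obtain ⟨x, hx, hxw⟩ := hRP w hw
      by_cases hxr : x = r
      · subst hxr
        refine ⟨r', mem_erase.mpr ⟨hne.symm, hr'⟩, ?_⟩
        have h1 := lev_le_of_dvd W f q J A hA hW w x hxw
        have e : f w - f r' = (f w - f x) + (f x - f r') := by ring
        rw [e]
        exact dvd_add hxw ((pow_dvd_pow _ h1).trans hdvd)
      · exact ⟨x, mem_erase.mpr ⟨hxr, hx⟩, hxw⟩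
    have h2 := hmin (R.erase r) (mem_filter.mpr ⟨mem_powerset.mpr ((erase_subset _ _).trans hRW), hP'⟩)
    rw [card_erase_of_mem hr] at h2
    have h3 := card_pos.mpr ⟨r, hr⟩
    omega
  have hpd : (R : Set (ℤ × ℤ)).PairwiseDisjoint
      (fun r => cls W f ((q : ℤ) ^ (lev W f q J A r)) r) := by
    intro r hr r' hr' hne
    rw [Function.onFun, disjoint_left]
    intro x hx hx'
    unfold cls at hx hx'
    rw [mem_filter] at hx hx'
    rcases le_total (lev W f q J A r) (lev W f q J A r') with h | h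
    · refine hdisj r hr r' hr' hne h ?_
      have e : f r - f r' = (f x - f r') - (f x - f r) := by ring
      rw [e]
      exact dvd_sub ((pow_dvd_pow _ h).trans hx'.2) hx.2
    · refine hdisj r' hr' r hr hne.symm h ?_
      have e : f r' - f r = (f x - f r) - (f x - f r') := by ring
      rw [e]
      exact dvd_sub ((pow_dvd_pow _ h).trans hx.2) hx'.2
  have hcard : R.card ≤ A := by
    have h1 : ∑ r ∈ R, (cls W f ((q : ℤ) ^ (lev W f q J A r)) r).card ≤ W.card := by
      rw [← card_biUnion hpd]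
      refine card_le_card ?_
      intro x hx
      rw [mem_biUnion] at hx
      obtain ⟨r, -, hx⟩ := hx
      unfold cls at hx
      exact (mem_filter.mp hx).1
    have h2 : R.card * W.card ≤ A * W.card := by
      calc R.card * W.card = ∑ _r ∈ R, W.card := by rw [sum_const, smul_eq_mul]
        _ ≤ ∑ r ∈ R, A * (cls W f ((q : ℤ) ^ (lev W f q J A r)) r).card :=
            sum_le_sum fun r _ => (lev_spec W f q J A hA hW r).le
        _ = A * ∑ r ∈ R, (cls W f ((q : ℤ) ^ (lev W f q J A r)) r).card := by rw [mul_sum]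
        _ ≤ A * W.card := Nat.mul_le_mul_left _ h1
    exact Nat.le_of_mul_le_mul_right h2 (card_pos.mpr hW)
  refine ⟨R, fun w => if h : ∃ r ∈ R, (q : ℤ) ^ (lev W f q J A w) ∣ f w - f r then h.choose else w,
    hRW, hcard, fun w hw => ?_⟩
  have h := hRP w hw
  simp only [dif_pos h]
  exact h.choose_spec

theorem t_LAB : S_LAB := by
  intro W f q J A hA hq
  constructor
  · intro w hw hJ
    have hW : W.Nonempty := ⟨w, hw⟩
    have h1 : ¬ W.card < A * (cls W f ((q : ℤ) ^ (lev W f q J A w + 1)) w).card := by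
      intro h
      have := le_lev W f q J A w _ hJ h
      omega
    push Not at h1
    refine le_trans (Nat.mul_le_mul_left _ (card_le_card ?_)) h1
    intro x hx
    rw [mem_filter] at hx
    unfold cls
    rw [mem_filter]
    refine ⟨hx.1, ?_⟩
    have h2 := congrArg Prod.fst hx.2
    have h3 := congrArg Prod.snd hx.2
    unfold lab at h2 h3
    simp only at h2 h3
    rw [h2] at h3
    exact Int.ModEq.dvd (show Int.ModEq _ (f w) (f x) from h3.symm)
  · intro w hw w' hw' hJ hd
    have hW : W.Nonempty := ⟨w, hw⟩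
    have h1 : lev W f q J A w ≤ lev W f q J A w' :=
      lev_le_of_dvd W f q J A hA hW w w' ((pow_dvd_pow _ (Nat.le_succ _)).trans hd)
    have h2 : lev W f q J A w' ≤ lev W f q J A w := by
      by_contra hcon
      push Not at hcon
      have h3 := lev_spec W f q J A hA hW w'
      have hsub : cls W f ((q : ℤ) ^ (lev W f q J A w')) w' ⊆
          cls W f ((q : ℤ) ^ (lev W f q J A w + 1)) w' := by
        intro x hx
        unfold cls at hx ⊢
        rw [mem_filter] at hx ⊢
        exact ⟨hx.1, (pow_dvd_pow _ hcon).trans hx.2⟩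
      have h4 : W.card < A * (cls W f ((q : ℤ) ^ (lev W f q J A w + 1)) w).card := by
        rw [cls_congr W f _ w w' hd]
        exact h3.trans_le (Nat.mul_le_mul_left _ (card_le_card hsub))
      have := le_lev W f q J A w _ hJ h4
      omega
    have heq : lev W f q J A w' = lev W f q J A w := le_antisymm h2 h1
    unfold lab
    rw [heq]
    refine Prod.ext rfl ?_
    exact (Int.modEq_iff_dvd.mpr hd).symm

theorem t_RES : S_ENE → S_RES := by
  intro hE T ε hT hε
  obtain ⟨α, hα, hα1, C, hC, h⟩ := hE (ε / 2) (1 / (T * Real.log 2 + 1)) (by positivity)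
    (by have := Real.log_pos (one_lt_two); positivity)
  have hl2 := Real.log_pos (one_lt_two)
  set η : ℝ := α * ε / (2 * (2 + α)) with hη
  have hηp : 0 < η := by positivity
  refine ⟨η, C ^ (-(1 / α)), hηp, by positivity, fun P hP2 hPc W hW hWc => ?_⟩
  have hP : Ad P := ⟨hP2, hPc⟩
  have hw0 : 0 < W.card := card_pos.mpr hW
  have hw : (1 : ℝ) ≤ W.card := by exact_mod_cast hw0
  have hwp : (0 : ℝ) < W.card := by linarith
  have hlog : 0 ≤ Real.log W.card := Real.log_nonneg hw
  have hcond : 1 / (T * Real.log 2 + 1) * Real.log W.card ≤ P.card := by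
    have h1 : Real.log W.card ≤ T * P.card * Real.log 2 := by
      have := Real.log_le_log hwp hWc
      rwa [Real.log_rpow (by norm_num)] at this
    rw [one_div, inv_mul_le_iff₀ (by positivity)]
    have : (0 : ℝ) ≤ P.card := Nat.cast_nonneg _
    nlinarith
  have hen := h P hP W hW hcond
  rw [sum_mul_eq hP (fun t => NE α (t : ℤ) W), card_mul hP] at hen
  push_cast at hen
  set B : ℝ := (W.card : ℝ) ^ η * (C * (W.card : ℝ) ^ (1 + α * (ε / 2))) with hB
  have hBp : 0 < B := by positivity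
  refine ⟨P.powerset.filter fun s => B < NE α ((pd s : ℕ) : ℤ) W, filter_subset _ _, ?_, ?_⟩
  · have h1 : ((P.powerset.filter fun s => B < NE α ((pd s : ℕ) : ℤ) W).card : ℝ) * B ≤
        ∑ s ∈ P.powerset, NE α ((pd s : ℕ) : ℤ) W := by
      calc _ = ∑ s ∈ P.powerset.filter (fun s => B < NE α ((pd s : ℕ) : ℤ) W), B := by
            rw [sum_const, nsmul_eq_mul]
        _ ≤ ∑ s ∈ P.powerset.filter (fun s => B < NE α ((pd s : ℕ) : ℤ) W),
              NE α ((pd s : ℕ) : ℤ) W := sum_le_sum fun s hs => (mem_filter.mp hs).2.le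
        _ ≤ _ := sum_le_sum_of_subset_of_nonneg (filter_subset _ _) fun s _ _ => NE_nonneg _ _ _
    have h2 := h1.trans hen
    have h3 : (W.card : ℝ) ^ (-η) * 2 ^ P.card * B =
        C * 2 ^ P.card * (W.card : ℝ) ^ (1 + α * (ε / 2)) := by
      rw [hB]
      have : (W.card : ℝ) ^ (-η) * (W.card : ℝ) ^ η = 1 := by
        rw [← Real.rpow_add hwp]; simp
      linear_combination (2 ^ P.card * (C * (W.card : ℝ) ^ (1 + α * (ε / 2)))) * this
    exact le_of_mul_le_mul_right (h2.trans_eq h3.symm) hBp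
  · intro s hs hns W' hW' hc
    have hNE : NE α ((pd s : ℕ) : ℤ) W ≤ B := by
      by_contra hcon
      push Not at hcon
      exact hns (mem_filter.mpr ⟨hs, hcon⟩)
    have h1 := (NE_holder hα.le ((pd s : ℕ) : ℤ) W').trans
      (mul_le_mul_of_nonneg_left ((NE_mono hα.le hW').trans hNE) (by positivity))
    set n : ℝ := ((W'.image (ph ((pd s : ℕ) : ℤ))).card : ℝ) with hn
    have hn0 : 0 ≤ n := Nat.cast_nonneg _
    have h2 : ((W.card : ℝ) ^ (1 - η)) ^ (1 + α) ≤ n ^ α * B :=
      (Real.rpow_le_rpow (by positivity) hc (by positivity)).trans h1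
    rw [← Real.rpow_mul hwp.le] at h2
    have h3 : (C ^ (-(1 / α)) * (W.card : ℝ) ^ (1 - ε)) ^ α ≤ n ^ α := by
      have h4 : (C ^ (-(1 / α)) * (W.card : ℝ) ^ (1 - ε)) ^ α * B =
          (W.card : ℝ) ^ ((1 - η) * (1 + α)) := by
        rw [Real.mul_rpow (by positivity) (by positivity), ← Real.rpow_mul (by linarith),
          ← Real.rpow_mul hwp.le, hB]
        have e1 : -(1 / α) * α = -1 := by field_simp
        rw [e1, Real.rpow_neg_one]
        have e2 : (1 - η) * (1 + α) = (1 - ε) * α + η + (1 + α * (ε / 2)) := by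
          rw [hη]; field_simp; ring
        rw [e2, Real.rpow_add hwp ((1 - ε) * α + η) (1 + α * (ε / 2)),
          Real.rpow_add hwp ((1 - ε) * α) η]
        have hCC : C⁻¹ * C = 1 := inv_mul_cancel₀ (by linarith)
        linear_combination ((W.card : ℝ) ^ ((1 - ε) * α) * (W.card : ℝ) ^ η *
          (W.card : ℝ) ^ (1 + α * (ε / 2))) * hCC
      have h5 : (C ^ (-(1 / α)) * (W.card : ℝ) ^ (1 - ε)) ^ α * B ≤ n ^ α * B := by
        rw [h4]; exact h2
      exact le_of_mul_le_mul_right h5 hBp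
    exact (Real.rpow_le_rpow_iff (by positivity) hn0 hα).mp h3

end Pool.Agent.Run7.h270.PW

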